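import Pool.Agent.W626.AH.Stm

/-! Project AH, part HM: the metric of the injective hull. -/

set_option autoImplicit false

namespace Pool.Agent.W320.AH

open Pool.Agent.W626.AH

variable {X : Type} {d : X → X → ℝ}

theorem nonneg (hd' : PD d) (f : Hull d) (x : X) : 0 ≤ f.1 x := by
  have h1 := f.2.1 x x
  rw [hd'.self] at h1
  linarith

theorem dnonneg (hd' : PD d) (x y : X) : 0 ≤ d x y := by
  have h1 := hd'.tri x y x
  rw [hd'.self, hd'.symm y x] at h1
  linarith

theorem lip (hd' : PD d) (f : Hull d) (x y : X) : f.1 x ≤ d x y + f.1 y := by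
  apply le_of_forall_pos_le_add
  intro ε hε
  obtain ⟨z, hz⟩ := f.2.2 x ε hε
  have h1 := hd'.tri x y z
  have h2 := f.2.1 y z
  linarith

theorem bdd (hd' : PD d) [Nonempty X] (f g : Hull d) :
    BddAbove (Set.range fun x => |f.1 x - g.1 x|) := by
  obtain ⟨x₀⟩ := ‹Nonempty X›
  refine ⟨f.1 x₀ + g.1 x₀, ?_⟩
  rintro _ ⟨x, rfl⟩
  have key : ∀ h : Hull d, h.1 x ≤ d x x₀ + h.1 x₀ ∧ d x x₀ - h.1 x₀ ≤ h.1 x := by
    intro h
    refine ⟨lip hd' h x x₀, ?_⟩
    have := h.2.1 x x₀
    linarith
  obtain ⟨h1, h2⟩ := key f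
  obtain ⟨h3, h4⟩ := key g
  show |f.1 x - g.1 x| ≤ _
  rw [abs_le]
  constructor <;> linarith

theorem le_hd (hd' : PD d) [Nonempty X] (f g : Hull d) (x : X) : |f.1 x - g.1 x| ≤ hd f g :=
  le_ciSup (bdd hd' f g) x

theorem hd_le [Nonempty X] (f g : Hull d) (c : ℝ) (h : ∀ x, f.1 x - g.1 x ≤ c) :
    hd f g ≤ c := by
  apply ciSup_le
  intro x
  rw [abs_le]
  refine ⟨?_, h x⟩
  have h1 : g.1 x - f.1 x ≤ c := by
    apply le_of_forall_pos_le_add
    intro ε hε
    obtain ⟨y, hy⟩ := g.2.2 x ε hε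
    have h2 := f.2.1 x y
    have h3 := h y
    linarith
  linarith

theorem main : S_hm := by
  intro X _ d hP
  refine ⟨le_hd hP, hd_le, ⟨?_, ?_, ?_⟩, ?_, ?_⟩
  · intro f
    apply le_antisymm
    · exact hd_le f f 0 (fun x => by rw [sub_self])
    · obtain ⟨x⟩ := ‹Nonempty X›
      have h := le_hd hP f f x
      exact (abs_nonneg _).trans h
  · intro f g
    unfold hd
    congr 1
    funext x
    exact abs_sub_comm _ _
  · intro f g h
    apply hd_le
    intro x
    have h1 := (le_abs_self _).trans (le_hd hP f g x)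
    have h2 := (le_abs_self _).trans (le_hd hP g h x)
    linarith
  · intro f g h
    apply Subtype.ext
    funext x
    have h1 := le_hd hP f g x
    rw [h] at h1
    have h2 := abs_eq_zero.1 (le_antisymm h1 (abs_nonneg _))
    linarith
  · intro x
    obtain ⟨e, he⟩ : ∃ e : Hull d, ∀ y, e.1 y = d x y := by
      refine ⟨⟨fun y => d x y, fun y z => ?_, fun y ε hε => ⟨x, ?_⟩⟩, fun y => rfl⟩
      · have := hP.tri y x z
        rw [hP.symm y x] at this
        exact this
      · show d x y + d x x < d y x + ε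
        rw [hP.self, hP.symm x y]
        linarith
    refine ⟨e, he, fun f => ?_⟩
    apply le_antisymm
    · apply hd_le
      intro y
      have := lip hP f y x
      rw [hP.symm y x] at this
      rw [he y]
      linarith
    · have h := (le_abs_self _).trans (le_hd hP f e x)
      rw [he x, hP.self, sub_zero] at h
      exact h

end Pool.Agent.W320.AH
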